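import Pool.Agent.Helper55.SCH.Goals

set_option autoImplicit false

namespace Pool.Agent.Helper83.SCH

open Finset Pool.Agent.Helper55.SCH

lemma S_succ (s : ℕ → ℝ) (k : ℕ) : S s (k + 1) = S s k + s (k + 1) := by
  unfold S
  rw [Finset.sum_Icc_succ_top (by omega)]

lemma w1_step (u : ℕ) (s r : ℕ → ℝ) (v : ℕ) (h1 : 1 ≤ v) (h2 : v < u) :
    w1 u s r (v + 1) - w1 u s r v = s v - s (u - v) := by
  obtain ⟨k, rfl⟩ : ∃ k, v = k + 1 := ⟨v - 1, by omega⟩
  obtain ⟨l, rfl⟩ : ∃ l, u = k + 1 + (l + 1) := ⟨u - (k + 1) - 1, by omega⟩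
  unfold w1
  have e1 : k + 1 + (l + 1) - (k + 1 + 1) = l := by omega
  have e2 : k + 1 + (l + 1) - (k + 1) = l + 1 := by omega
  have e3 : k + 1 + 1 - 1 = k + 1 := by omega
  have e4 : k + 1 - 1 = k := by omega
  rw [e1, e2, e3, e4, S_succ, S_succ]
  ring

theorem goalTELW (h1 : G_HUB) : G_TELW := by
  intro c u lam s r C a b ha hab hbu
  have hlam : 0 < lam := lt_of_lt_of_le one_pos C.lam1
  obtain ⟨hP1, hodd, hlip, hconv, hH, hPt, hPn, hPp⟩ := h1 lam hlam
  have hs1 : ∀ x, |s x| ≤ 1 := by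
    intro x
    by_cases hx : x ∈ Icc 1 c
    · rw [C.hs x hx, abs_neg]; exact hP1 _
    · rw [C.s0 x hx]; simp
  have step : ∀ v, 1 ≤ v → v < u →
      |Hub lam (w1 u s r (v + 1)) - Hub lam (w1 u s r v) + r v * s v - r (u - v) * s (u - v)|
        ≤ 4 / lam := by
    intro v hv1 hv2
    have hw := w1_step u s r v hv1 hv2
    obtain ⟨c1, c2⟩ := hconv (w1 u s r v) (w1 u s r (v + 1))
    have hl := hlip (w1 u s r v) (w1 u s r (v + 1))
    have hr1 : r v = - Phi lam (w1 u s r v) := C.hr v (by rw [mem_Icc]; omega)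
    have hr2 : r (v + 1) = - Phi lam (w1 u s r (v + 1)) := C.hr (v + 1) (by rw [mem_Icc]; omega)
    have hr3 : r (u - v) = r (v + 1) := by
      have := C.rs (v + 1) (by rw [mem_Icc]; omega)
      rw [← this]
      congr 1
      omega
    have hPa : Phi lam (w1 u s r v) = - r v := by rw [hr1]; ring
    have hPb : Phi lam (w1 u s r (v + 1)) = - r (u - v) := by rw [hr3, hr2]; ring
    have hd : |w1 u s r v - w1 u s r (v + 1)| ≤ 2 := by
      rw [abs_sub_comm, hw]
      have := abs_sub (s v) (s (u - v))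
      have e1 := hs1 v
      have e2 := hs1 (u - v)
      linarith
    have hd2 : (w1 u s r (v + 1) - w1 u s r v) ^ 2 ≤ 4 := by
      have : |w1 u s r (v + 1) - w1 u s r v| ≤ 2 := by rw [abs_sub_comm]; exact hd
      have h3 := abs_le.mp this
      nlinarith [h3.1, h3.2]
    have c3 : (w1 u s r (v + 1) - w1 u s r v) ^ 2 / (2 * lam) ≤ 2 / lam := by
      rw [div_le_div_iff₀ (by positivity) hlam]
      nlinarith
    have hl2 : |r v - r (u - v)| ≤ 2 / lam := by
      have e : r v - r (u - v) = - (Phi lam (w1 u s r v) - Phi lam (w1 u s r (v + 1))) := by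
        rw [hPa, hPb]; ring
      rw [e, abs_neg]
      refine hl.trans ?_
      gcongr
    have hl3 : |(r v - r (u - v)) * s (u - v)| ≤ 2 / lam := by
      rw [abs_mul]
      have h4 := hs1 (u - v)
      have h5 := abs_nonneg (r v - r (u - v))
      nlinarith [abs_nonneg (s (u - v))]
    have key : Hub lam (w1 u s r (v + 1)) - Hub lam (w1 u s r v) + r v * s v
        - r (u - v) * s (u - v) =
        (Hub lam (w1 u s r (v + 1)) - Hub lam (w1 u s r v)
          - Phi lam (w1 u s r v) * (w1 u s r (v + 1) - w1 u s r v))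
        + (r v - r (u - v)) * s (u - v) := by
      rw [hPa, hw]; ring
    rw [key]
    have h6 : |Hub lam (w1 u s r (v + 1)) - Hub lam (w1 u s r v)
          - Phi lam (w1 u s r v) * (w1 u s r (v + 1) - w1 u s r v)| ≤ 2 / lam := by
      rw [abs_of_nonneg c1]
      exact c2.trans c3
    have h7 : (4 : ℝ) / lam = 2 / lam + 2 / lam := by ring
    rw [h7]
    exact (abs_add_le _ _).trans (add_le_add h6 hl3)
  induction b, hab using Nat.le_induction with
  | base => simp
  | succ b hab ih =>
    obtain ⟨i1, i2⟩ := ih (by omega)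
    constructor
    · rw [Finset.sum_Ico_succ_top hab, ← i1, ← w1_step u s r b (by omega) (by omega)]
      ring
    · rw [Finset.sum_Ico_succ_top hab, Finset.sum_Ico_succ_top hab]
      have h8 := step b (by omega) (by omega)
      have e : Hub lam (w1 u s r (b + 1)) - Hub lam (w1 u s r a)
          + (∑ k ∈ Ico a b, r k * s k + r b * s b)
          - (∑ k ∈ Ico a b, r (u - k) * s (u - k) + r (u - b) * s (u - b)) =
          (Hub lam (w1 u s r b) - Hub lam (w1 u s r a)
            + ∑ v ∈ Ico a b, r v * s v - ∑ v ∈ Ico a b, r (u - v) * s (u - v)) +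
          (Hub lam (w1 u s r (b + 1)) - Hub lam (w1 u s r b) + r b * s b
            - r (u - b) * s (u - b)) := by ring
      rw [e]
      refine (abs_add_le _ _).trans ?_
      have h9 : 4 * (((b + 1 : ℕ) : ℝ) - a) / lam = 4 * ((b : ℝ) - a) / lam + 4 / lam := by
        push_cast; ring
      rw [h9]
      exact add_le_add i2 h8

end Pool.Agent.Helper83.SCH
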